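import Pool.Agent.L5helper19.TC.Rel5

/-!
# The relative reduction theorem, for a form killed by the operators of trace zero
-/

set_option autoImplicit false
set_option linter.unusedSectionVars false

namespace Pool.Agent.L5helper19.OF

open Matrix Module Finset Pool.Agent.L5helper73.TC Pool.Agent.L5helper73.CC Pool.Agent.Y90
open Pool.Agent.L5helper19.TC

noncomputable section

variable {L : Type} [Field L] [CharZero L] {Γ : Type} [Group Γ] {w u : ℕ}
  {ρ : Γ →* Matrix (Fin w) (Fin w) L} {χ : Γ →* Lˣ} {E : Matrix (Fin w) (Fin w) L}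
  {I : Type} [Fintype I] [DecidableEq I] {st : I → I} {P : I → Matrix (Fin w) (Fin w) L}
  {ρU : Γ →* Matrix (Fin u) (Fin u) L}
  {κ : Type} [Fintype κ] [DecidableEq κ]
  {𝒜 : ∀ κ : Type, Submodule L ((κ → Fin w) → L)}
  {ℬ : ∀ κ : Type, Submodule L ((κ → Fin w) → Fin u → L)}
  {n : ℕ} {e : Basis (Fin n ⊕ Fin n) L (Fin w → L)} {lab : Fin n ⊕ Fin n → I}

/-- The operators of trace zero on the pieces, skew for the form, kill all the coordinates of the
vector valued form `T`. -/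
def Killed (E : Matrix (Fin w) (Fin w) L) (P : I → Matrix (Fin w) (Fin w) L)
    (T : (κ → Fin w) → Fin u → L) : Prop :=
  ∀ (f : (Fin u → L) →ₗ[L] L) (X : (Fin w → L) →ₗ[L] (Fin w → L)), Good (om E) (PP P) X →
    (∀ i, tr (PP P) X i = 0) → ∀ v, act (mm fun J => f (T J)) X v = 0

/-- The weights of a component, and the first fundamental theorem for its coordinates. -/
theorem keyK (hS : Symp ρ χ E) (hP : Pool.Agent.L5helper73.TC.Coeff ρ E st P)
    {T : (κ → Fin w) → Fin u → L} (hk : Killed E P T)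
    (b : Adp (om E) (PP P) st e lab) (τ : κ → I)
    {J0 : κ → Fin w} (h0 : Tt P T τ J0 ≠ 0) :
    ∃ (a : I → ℤ) (p : ℕ), (∀ i, a (st i) = -a i) ∧ (∀ i, P i = 0 → a i = 0) ∧
      Fintype.card κ = 2 * p + Fintype.card (Σ q : (Σ i, Fin (a i).toNat), Mem lab q.1) ∧
      (∀ f : (Fin u → L) →ₗ[L] L, evE e (cmp (PP P) (mm fun J => f (T J)) τ) ∈
        Submodule.span L (Y90.PD κ lab Sum.swap (jj (om E) e)
          (fun q : (Σ i, Fin (a i).toNat) => q.1))) ∧
      ∀ f : (Fin u → L) →ₗ[L] L, ∀ X, Good (om E) (PP P) X → ∀ v,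
        act (cmp (PP P) (mm fun J => f (T J)) τ) X v =
          (∑ q : (Σ i, Fin (a i).toNat), tr (PP P) X q.1) *
            cmp (PP P) (mm fun J => f (T J)) τ v := by
  have hD := dat hS hP
  obtain ⟨j, hj⟩ : ∃ j, Tt P T τ J0 j ≠ 0 := by
    by_contra hcon
    push Not at hcon
    exact h0 (funext hcon)
  have hφ : ∀ f : (Fin u → L) →ₗ[L] L, ∀ X, Good (om E) (PP P) X → (∀ i, tr (PP P) X i = 0) →
      ∀ v, act (cmp (PP P) (mm fun J => f (T J)) τ) X v = 0 := by
    intro f X hX hX' v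
    rw [act_cmp hX]
    exact hk f X hX hX' _
  let f0 : (Fin u → L) →ₗ[L] L := LinearMap.proj j
  have h1 : cmp (PP P) (mm fun J => f0 (T J)) τ ≠ 0 := by
    intro h
    apply hj
    have h2 := map_Tt (P := P) f0 T τ J0
    rw [h, map_zero] at h2
    exact h2
  obtain ⟨a, ha, ha0, -, ha2⟩ := hD.exists_wt (hD.cmp_type _ τ) (hφ f0) h1
  obtain ⟨v0, hv0⟩ : ∃ v, cmp (PP P) (mm fun J => f0 (T J)) τ v ≠ 0 := by
    by_contra hcon
    push Not at hcon
    exact h1 (MultilinearMap.ext hcon)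
  have hact : ∀ f : (Fin u → L) →ₗ[L] L, ∀ X, Good (om E) (PP P) X → ∀ v,
        act (cmp (PP P) (mm fun J => f (T J)) τ) X v =
          (∑ q : (Σ i, Fin (a i).toNat), tr (PP P) X q.1) *
            cmp (PP P) (mm fun J => f (T J)) τ v := by
    intro f X hX v
    rw [hD.act_eq (hD.cmp_type _ τ) (hφ f) hX]
    congr 1
    have h2 := ha2 X hX v0
    rw [hD.act_eq (hD.cmp_type _ τ) (hφ f0) hX] at h2
    exact mul_right_cancel₀ hv0 h2
  have hspan : ∀ f : (Fin u → L) →ₗ[L] L, evE e (cmp (PP P) (mm fun J => f (T J)) τ) ∈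
        Submodule.span L (Y90.PD κ lab Sum.swap (jj (om E) e)
          (fun q : (Σ i, Fin (a i).toNat) => q.1)) := fun f =>
    dat_span hD b (hD.cmp_type _ τ) a ha (hact f)
  have hne : (Y90.PD κ lab Sum.swap (jj (om E) e)
      (fun q : (Σ i, Fin (a i).toNat) => q.1)).Nonempty := by
    by_contra hcon
    rw [Set.not_nonempty_iff_eq_empty] at hcon
    have h2 := hspan f0
    rw [hcon, Submodule.span_empty, Submodule.mem_bot] at h2
    apply h1
    apply evE_inj (e := e)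
    rw [h2, map_zero]
  obtain ⟨F, m, S0, e2, c', -⟩ := hne
  exact ⟨a, Fintype.card S0, ha, fun i hi => ha0 i (by unfold PP; rw [hi, map_zero]),
    pd_card e2, hspan, hact⟩

/-- **The relative reduction theorem.** -/
theorem relMainK {d : ℕ} (hS : Symp ρ χ E) (hP : Pool.Agent.L5helper73.TC.Coeff ρ E st P)
    (h𝒜 : Pool.Agent.L5helper73.TC.ClassSystem ρ χ 𝒜)
    (hℬ : RelSystem 𝒜 ℬ) {U : Type} {h : U → Matrix (Fin w) (Fin w) L} (hh : HodgeTate ρ E P h)
    (hdet : ∀ (s : ℕ) (C : Fin s → I) (v : Fin u → L), (∀ q, P (C q) ≠ 0) →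
      (OnlyTateLines χ ρU d → IsTateRel ρ χ ρU d (fun _ : Fin 0 → Fin w => v) ∧
        ∀ u : U, ∑ q, ((h u * P (C q)).trace - (P (C q)).trace / 2) = 0) →
      ∀ K, IsTateRel ρ χ ρU d (fun J => detForm P C K J • v) →
      (fun J => detForm P C K J • v) ∈ ℬ (Σ q, Fin (P (C q)).rank))
    {T : (κ → Fin w) → Fin u → L} (hT : IsTateRel ρ χ ρU d T) (hk : Killed E P T) : T ∈ ℬ κ := by
  classical
  obtain ⟨c, hc, Δ, hΔ, ht⟩ := hT
  have hD := dat hS hP
  obtain ⟨n, e, lab, b⟩ := hD.exists_adp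
  have h0 : T = ∑ τ : κ → I, Tt P T τ := by
    funext J
    rw [Finset.sum_apply]
    exact sum_Tt hD T J
  rw [h0]
  refine Submodule.sum_mem _ fun τ _ => ?_
  by_cases hz : Tt P T τ = 0
  · rw [hz]
    exact Submodule.zero_mem _
  obtain ⟨J0, hJ0⟩ : ∃ J, Tt P T τ J ≠ 0 := by
    by_contra hcon
    push Not at hcon
    exact hz (funext hcon)
  obtain ⟨a, p, ha, ha0, hp, hspan, hact⟩ := keyK hS hP hk b τ hJ0
  have hδ := fun γ : Γ => exists_det b (g := Matrix.toLin' (ρ γ))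
    (fun i x => lin_comm hP γ i x) (fun q : (Σ i, Fin (a i).toNat) => q.1)
  choose δ hδ using hδ
  have hW : ∀ J, Tt P T τ J ∈ Wt χ ρU c Δ (fun γ => (χ γ : L) ^ p * δ γ) := fun J γ hγ =>
    (eigen hS hP ht b τ _ hp hspan hγ (hδ γ) J).1
  have hsc : ∀ f : (Fin u → L) →ₗ[L] L, ∀ γ ∈ Δ, ∀ J,
      ∑ J' : κ → Fin w, (∏ k, ρ γ (J' k) (J k)) * f (Tt P T τ J') =
      ((χ γ : L) ^ p * δ γ) * f (Tt P T τ J) := fun f γ hγ J =>
    (eigen hS hP ht b τ _ hp hspan hγ (hδ γ) J).2 f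
  -- the case of Tate lines
  have hcase : OnlyTateLines χ ρU d → (∀ v ∈ Wt χ ρU c Δ (fun γ => (χ γ : L) ^ p * δ γ),
      IsTateRel ρ χ ρU d (fun _ : Fin 0 → Fin w => v)) ∧ ∀ u : U,
        ∑ q : (Σ i, Fin (a i).toNat), ((h u * P q.1).trace - (P q.1).trace / 2) = 0 := by
    intro hline
    obtain ⟨j, hj, Δ', hΔ', hjΔ⟩ := hline _ hJ0 Δ hΔ (fun γ hγ =>
      ⟨((χ γ : L) ^ c)⁻¹ * ((χ γ : L) ^ p * δ γ), by
        have h1 := hW J0 γ hγ
        rw [mul_smul, ← h1, smul_smul, inv_mul_cancel₀ (pow_ne_zero c (Units.ne_zero (χ γ))),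
          one_smul]⟩)
    have hcj : j ≤ c := by omega
    have hpow : ∀ γ, (χ γ : L) ^ c = (χ γ : L) ^ (c - j) * (χ γ : L) ^ j := by
      intro γ
      rw [← pow_add]
      congr 1
      omega
    have hμ : ∀ γ ∈ Δ ⊓ Δ', (χ γ : L) ^ p * δ γ = (χ γ : L) ^ (c - j) := by
      rintro γ ⟨h1, h2⟩
      have h3 := hW J0 γ h1
      rw [hpow, mul_smul, hjΔ γ h2] at h3
      exact (smul_left_injective L hJ0 h3).symm
    have hfin : (Δ ⊓ Δ').FiniteIndex := by
      have := hΔ
      have := hΔ'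
      infer_instance
    constructor
    · intro v hv
      refine ⟨j, by rw [Fintype.card_fin]; omega, Δ ⊓ Δ', hfin, fun γ hγ J => ?_⟩
      rw [Fintype.sum_unique, Finset.univ_eq_empty, Finset.prod_empty, one_smul]
      have h3 : (χ γ : L) ^ c • (ρU γ).mulVec v = ((χ γ : L) ^ p * δ γ) • v := hv γ hγ.1
      rw [hμ γ hγ, hpow, mul_smul] at h3
      exact (smul_right_injective _ (pow_ne_zero (c - j) (Units.ne_zero (χ γ))) h3).symm
    · intro u0
      obtain ⟨i0, hi0⟩ : ∃ i, Tt P T τ J0 i ≠ 0 := by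
        by_contra hcon
        push Not at hcon
        exact hJ0 (funext hcon)
      let f0 : (Fin u → L) →ₗ[L] L := LinearMap.proj i0
      have h1 : IsTate ρ χ (fun J => f0 (Tt P T τ J)) := by
        refine ⟨c - j, by omega, Δ ⊓ Δ', hfin, fun γ hγ J => ?_⟩
        rw [hsc f0 γ hγ.1 J, hμ γ hγ]
      have h2 : mm (fun J => f0 (Tt P T τ J)) = cmp (PP P) (mm fun J => f0 (T J)) τ := by
        apply ext_evS
        rw [evS_mm]
        funext J
        exact map_Tt f0 T τ J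
      have h3 := kill_ht hS hh h1 u0 (fun k => Pi.single (J0 k) 1)
      rw [h2, hact f0 _ (good_ht hh u0), ← evS_apply, ← map_Tt] at h3
      have h4 := (mul_eq_zero.1 h3).resolve_right hi0
      simpa only [tr_ht] using h4
  obtain ⟨r, v, f, hv, hF⟩ := expand _ _ hW
  rw [hF]
  refine Submodule.sum_mem _ fun i _ => ?_
  obtain ⟨D, hD'⟩ := exists_prodDet (Y := Fin w → L)
    (fun q : (Σ i, Fin (a i).toNat) => Mem lab q.1) (fun q y => e.coord y.1)
  have h1 : (fun J => f i (Tt P T τ J) • v i) =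
      fun J => evS (cmp (PP P) (mm fun J => f i (T J)) τ) J • v i := by
    funext J
    rw [map_Tt]
  rw [h1]
  refine pd_mem hS hP h𝒜 hℬ b (fun q : (Σ i, Fin (a i).toNat) => q.1) hD' ?_ (hspan (f i))
  let g := (Fintype.equivFin (Σ i, Fin (a i).toNat)).symm
  refine D_mem b hℬ _ hD' g fun K => ?_
  have hpos : ∀ q : (Σ i, Fin (a i).toNat), P q.1 ≠ 0 := by
    intro q hq
    have h2 := ha0 q.1 hq
    have h3 := q.2.2
    omega
  refine hdet _ (fun q => (g q).1) (v i) (fun q => hpos _) (fun hline =>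
    ⟨(hcase hline).1 _ (hv i), fun u0 => ?_⟩) K ?_
  · rw [← (hcase hline).2 u0]
    exact Equiv.sum_comp g (fun q : (Σ i, Fin (a i).toNat) =>
      (h u0 * P q.1).trace - (P q.1).trace / 2)
  let e' : ∀ q, Mem lab (g q).1 ≃ Fin (P (g q).1).rank := fun q =>
    Fintype.equivFinOfCardEq (hrank b (g q).1).symm
  have hcard : Fintype.card (Σ q, Fin (P (g q).1).rank) =
      Fintype.card (Σ q : (Σ i, Fin (a i).toNat), Mem lab q.1) :=
    Fintype.card_congr ((Equiv.sigmaCongrRight fun q => (e' q).symm).trans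
      (Equiv.sigmaCongrLeft (β := fun q : (Σ i, Fin (a i).toNat) => Mem lab q.1) g))
  refine ⟨c - p, ?_, Δ, hΔ, fun γ hγ J => ?_⟩
  · rw [hcard]
    omega
  · have h2 : ∑ J', (∏ k, ρ γ (J' k) (J k)) * detForm P (fun q => (g q).1) K J' =
        δ γ * detForm P (fun q => (g q).1) K J := by
      refine detForm_equiv b (fun q => (g q).1) e' K (fun y => ?_) J
      let E2 : (Σ q, Mem lab (g q).1) ≃ Σ q : (Σ i, Fin (a i).toNat), Mem lab q.1 :=
        Equiv.sigmaCongrLeft (β := fun q : (Σ i, Fin (a i).toNat) => Mem lab q.1) g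
      have h3 := hδ γ (fun z => y (E2.symm z))
      rw [← g.prod_comp, ← g.prod_comp] at h3
      have h5 : ∀ q (m : Mem lab (g q).1), y (E2.symm ⟨g q, m⟩) = y ⟨q, m⟩ := by
        intro q m
        congr 1
        exact E2.symm_apply_apply ⟨q, m⟩
      simp only [h5] at h3
      exact h3
    have h4 : ∑ J', (∏ k, ρ γ (J' k) (J k)) • (detForm P (fun q => (g q).1) K J' • v i) =
        (δ γ * detForm P (fun q => (g q).1) K J) • v i := by
      rw [← h2, Finset.sum_smul]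
      exact Finset.sum_congr rfl fun J' _ => smul_smul _ _ _
    rw [h4, Matrix.mulVec_smul, smul_comm]
    have h5 := hv i γ hγ
    have h6 : (χ γ : L) ^ c = (χ γ : L) ^ p * (χ γ : L) ^ (c - p) := by
      rw [← pow_add]
      congr 1
      omega
    have h7 : (χ γ : L) ^ (c - p) • (ρU γ).mulVec (v i) = δ γ • v i := by
      have h8 : (χ γ : L) ^ p • ((χ γ : L) ^ (c - p) • (ρU γ).mulVec (v i)) =
          (χ γ : L) ^ p • (δ γ • v i) := by
        rw [smul_smul, smul_smul, ← h6]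
        exact h5
      exact smul_right_injective _ (pow_ne_zero p (Units.ne_zero (χ γ))) h8
    rw [h7, smul_smul, mul_comm]

end

end Pool.Agent.L5helper19.OF
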