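import Pool.Agent.L5helper19.AA.Patm
import Pool.Agent.L5helper29.OF.DefsG

/-!
# The patterns imply that the Galois group is large
-/

set_option autoImplicit false
set_option linter.all false

namespace Pool.Agent.L5helper19.OF

open scoped IntermediateField
open Polynomial NumberField Finset Pool.Agent.W458.MF Pool.Agent.W521.Frob
  Pool.Agent.L5helper29.AA Pool.Agent.L5helper29.AS Pool.Agent.L5helper29.SE
  Pool.Agent.L5helper19.AA Pool.Agent.L5helper29.OF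

theorem splits_one (r : ℕ) : SplitsMod (1 : ℤ[X]) r := ⟨∅, by simp⟩

theorem PATG : St_PATG := by
  intro K _ _ τ J J' _ _ _ _ Q hQ P h hP h3 hm hd hnorm hnorm' e M he0 hM he huni
    h1 h2 h4 h5 h6
  classical
  set B : Finset ℂ := ∅ with hB
  have hBR : ∀ b ∈ B, aeval b (1 : ℤ[X]) = 0 := fun b hb => absurd hb (notMem_empty b)
  set R : ℤ[X] := 1 with hR1
  have hR : R.Monic := monic_one
  have hRs : ∀ r : ℕ, SplitsMod R r := fun r => splits_one r
  have hρ : 0 < Real.sqrt (Q : ℝ) := Real.sqrt_pos.2 (by exact_mod_cast (by omega : 0 < Q))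
  have hQ0 : Q ≠ 0 := by omega
  have hcard : ∀ j, (rts τ (P j)).card = (P j).natDegree := by
    intro j
    obtain ⟨r, hr, φ, -, -, hirr, -⟩ := h1 j
    exact rts_card (hP j) φ hirr.2.2
  have hmem : ∀ j x, x ∈ rts τ (P j) ↔ IsRt τ (P j) x := fun j x => mem_rts (hP j)
  have hmemZ : ∀ i x, x ∈ rtsZ (weil Q (h i)) ↔ aeval x (weil Q (h i)) = 0 :=
    fun i x => mem_rtsZ (weil_monic Q (hm i))
  have hst : ∀ j, ∀ σ ∈ GK τ B, ∀ x ∈ rts τ (P j), σ x ∈ rts τ (P j) :=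
    fun j σ hσ x hx => rts_stable (hP j) hσ.1 hx
  -- the first elements
  have k1 : ∀ j, ∃ σ ∈ GK τ B, (∀ i, i ≠ j → ∀ x ∈ rts τ (P i), σ x = x) ∧
      (∀ i, ∀ x ∈ rtsZ (weil Q (h i)), σ x = x) ∧
      ∀ x ∈ rts τ (P j), ∀ y ∈ rts τ (P j), ∃ k : ℕ, (σ ^ k : RingAut ℂ) x = y := by
    intro j
    obtain ⟨r, hr, φ, hr2, hrQ, hirr, hsp, hsp'⟩ := h1 j
    have hRr := hRs r
    let P' : J ⊕ J' → (𝓞 K)[X] := fun o => match o with
      | Sum.inl j => P j
      | Sum.inr i => upZ K (weil Q (h i))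
    obtain ⟨σ, a1, a2, a3, a4, -⟩ := FROB K τ r φ (J ⊕ J') P' R (by
      rintro (i | i)
      · exact hP i
      · exact upZ_monic (weil_monic Q (hm i))) hR hRr
    refine ⟨σ, ⟨a1, fun b hb => a2 b (hBR b hb)⟩, ?_, ?_, ?_⟩
    · intro i hi x hx
      obtain ⟨T, -, hT, -⟩ := hsp i hi
      exact a3 (Sum.inl i) ⟨T, hT⟩ x ((hmem i x).1 hx)
    · intro i x hx
      refine a3 (Sum.inr i) ?_ x ?_
      · obtain ⟨T, hT⟩ := weil_split hr2 hrQ (hm i) (hsp' i)
        exact ⟨T, (upZ_map φ _).trans hT⟩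
      · change IsRt τ (upZ K (weil Q (h i))) x
        rw [isRt_upZ]
        exact (hmemZ i x).1 hx
    · intro x hx y hy
      exact a4 (Sum.inl j) hirr.2.2 x y ((hmem j x).1 hx) ((hmem j y).1 hy)
  -- the second elements
  have k2 : ∀ j, ∃ σ ∈ GK τ B, ∃ x₀ ∈ rts τ (P j), σ x₀ = x₀ ∧
      ∀ x ∈ rts τ (P j), ∀ y ∈ rts τ (P j), x ≠ x₀ → y ≠ x₀ →
        ∃ k : ℕ, (σ ^ k : RingAut ℂ) x = y := by
    intro j
    obtain ⟨r, hr, φ, a, g, hag, hg⟩ := h2 j
    have hRr := hRs r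
    obtain ⟨σ, a1, a2, -, -, a5⟩ := FROB K τ r φ J P R hP hR hRr
    obtain ⟨x₀, b1, b2, b3⟩ := a5 j a g hag hg.2.2 (by
      have := hg.2.1
      have := h3 j
      omega)
    refine ⟨σ, ⟨a1, fun b hb => a2 b (hBR b hb)⟩, x₀, (hmem j x₀).2 b1, b2, ?_⟩
    intro x hx y hy
    exact b3 x y ((hmem j x).1 hx) ((hmem j y).1 hy)
  have htwo : ∀ j, ∀ x ∈ rts τ (P j), ∀ y ∈ rts τ (P j), ∀ x' ∈ rts τ (P j), ∀ y' ∈ rts τ (P j),
      x ≠ y → x' ≠ y' → ∃ σ ∈ GK τ B, σ x = x' ∧ σ y = y' := by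
    intro j
    obtain ⟨σ₁, b1, -, -, b3⟩ := k1 j
    obtain ⟨σ₂, c1, x₀, c2, c3, c4⟩ := k2 j
    exact two_trans (hst j) b1 c1 b3 c2 c3 c4
  have hgt : ∀ j, ∃ x ∈ rts τ (P j), ∃ y ∈ rts τ (P j), x ≠ y := by
    intro j
    have h5 : 1 < (rts τ (P j)).card := by rw [hcard]; have := h3 j; omega
    obtain ⟨x, hx, y, hy, hxy⟩ := one_lt_card.1 h5
    exact ⟨x, hx, y, hy, hxy⟩
  have hblk : ∀ j, Blk (GK τ B) (rts τ (P j)) := by
    intro j
    refine ⟨?_, ?_, hst j, Or.inl (htwo j), ?_⟩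
    · intro x hx h
      have h5 := hnorm j x ((hmem j x).1 hx)
      rw [h, norm_zero] at h5
      exact hρ.ne h5
    · intro x hx y hy
      rw [hnorm j x ((hmem j x).1 hx), hnorm j y ((hmem j y).1 hy)]
    · obtain ⟨x, hx, y, hy, hxy⟩ := hgt j
      refine ⟨x, hx, y, hy, fun N hN h => ?_⟩
      obtain ⟨r, hr, φ, hsp⟩ := h4 j
      have h5 := POW K τ r φ (P j) _ e (hP j) hsp x y
        ((hmem j x).1 hx) ((hmem j y).1 hy) hxy
      have hy0 : y ≠ 0 := by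
        intro h6
        have h7 := hnorm j y ((hmem j y).1 hy)
        rw [h6, norm_zero] at h7
        exact hρ.ne h7
      have h6 := he j (x / y) ⟨N, hN, by rw [div_pow, h, div_self (pow_ne_zero _ hy0)]⟩
        (quot_degree τ (hP j) ((hmem j x).1 hx) ((hmem j y).1 hy))
      rw [div_pow, div_eq_one_iff_eq (pow_ne_zero _ hy0)] at h6
      exact h5 h6
  -- the flips
  have k5 : ∀ i, ∃ s ∈ GK τ B, (∀ j, ∀ x ∈ rts τ (P j), s x = x) ∧
      (∀ i', i' ≠ i → ∀ x ∈ rtsZ (weil Q (h i')), s x = x) ∧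
      ∃ α : ℂ, aeval α (weil Q (h i)) = 0 ∧ s α = Q / α ∧ α ≠ Q / α ∧
        aeval (α + Q / α) (luc Q M) ≠ 0 ∧
        ∀ β, aeval β (weil Q (h i)) = 0 → β ≠ α → β ≠ Q / α → s β = β := by
    intro i
    obtain ⟨r, hr, φ, hr2, hrQ, hfl, hsp', hsp⟩ := h6 i
    have hRr := hRs r
    let P' : Option (J ⊕ {i' : J' // i' ≠ i}) → (𝓞 K)[X] := fun o => match o with
      | none => upZ K R
      | some (Sum.inl j) => P j
      | some (Sum.inr i') => upZ K (weil Q (h i'))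
    obtain ⟨s, a1, a2, a3⟩ := flipK K τ r φ hr2 P' (by
      rintro (_ | j | i')
      · exact upZ_monic hR
      · exact hP j
      · exact upZ_monic (weil_monic Q (hm i'))) (by
      rintro (_ | j | i')
      · obtain ⟨T, hT⟩ := hRr
        exact ⟨T, (upZ_map φ _).trans hT⟩
      · obtain ⟨T, -, hT, -⟩ := hsp j
        exact ⟨T, hT⟩
      · obtain ⟨T, hT⟩ := weil_split hr2 hrQ (hm i') (hsp' i' i'.2)
        exact ⟨T, (upZ_map φ _).trans hT⟩) Q hrQ (h i) (hm i) M hfl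
    refine ⟨s, ⟨a1, fun b hb => a2 none b ?_⟩, ?_, ?_, a3⟩
    · change IsRt τ (upZ K R) b
      rw [isRt_upZ]
      exact hBR b hb
    · intro j x hx
      exact a2 (some (Sum.inl j)) x ((hmem j x).1 hx)
    · intro i' hi' x hx
      refine a2 (some (Sum.inr ⟨i', hi'⟩)) x ?_
      change IsRt τ (upZ K (weil Q (h i'))) x
      rw [isRt_upZ]
      exact (hmemZ i' x).1 hx
  have hblkS : ∀ i, BlkS Q (GK τ B) (rtsZ (weil Q (h i))) := by
    intro i
    refine blkS_of (GK τ B) hQ (hm i) (hnorm' i) hM (huni i) ?_ ?_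
    · intro θ θ' hθ hθ'
      obtain ⟨r, hr, φ, hirr⟩ := h5 i
      have hRr := hRs r
      obtain ⟨σ, a1, a2, -, a4, -⟩ := FROB K τ r φ Unit (fun _ => upZ K (h i)) R
        (fun _ => upZ_monic (hm i)) hR hRr
      obtain ⟨k, hk⟩ := a4 () (by rw [upZ_map]; exact hirr.2.2) θ θ'
        ((isRt_upZ (h i) θ).2 hθ) ((isRt_upZ (h i) θ').2 hθ')
      exact ⟨σ ^ k, (GK τ B).pow_mem ⟨a1, fun b hb => a2 b (hBR b hb)⟩ k, hk⟩
    · obtain ⟨s, b1, -, -, b2⟩ := k5 i
      exact ⟨s, b1, b2⟩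
  have hind : Pool.Agent.L5helper29.AA.Independent (GK τ B)
      (Sum.elim (fun j => rts τ (P j)) (fun i => rtsZ (weil Q (h i)))) := by
    rintro F (j | i) hF
    · obtain ⟨σ, b1, b2, b2', b3⟩ := k1 j
      refine ⟨σ, b1, ?_, ?_⟩
      · rintro (j' | i') hmem' x hx
        · exact b2 j' (fun e => hF (by rw [← e]; exact hmem')) x hx
        · exact b2' i' x hx
      · by_contra hcon
        push Not at hcon
        obtain ⟨x, hx, y, hy, hxy⟩ := hgt j
        obtain ⟨k, hk⟩ := b3 x hx y hy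
        apply hxy
        rw [← hk]
        have hfixk : ∀ k : ℕ, (σ ^ k : RingAut ℂ) x = x := by
          intro k
          induction k with
          | zero => rfl
          | succ k ih =>
            rw [pow_succ]
            change (σ ^ k : RingAut ℂ) (σ x) = x
            rw [hcon x hx, ih]
        exact (hfixk k).symm
    · obtain ⟨s, b1, b2, b2', α, c1, c2, c3, -⟩ := k5 i
      refine ⟨s, b1, ?_, α, (hmemZ i α).2 c1, ?_⟩
      · rintro (j' | i') hmem' x hx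
        · exact b2 j' x hx
        · exact b2' i' (fun e => hF (by rw [← e]; exact hmem')) x hx
      · rw [c2]
        exact c3.symm
  refine ⟨⟨hblk, hblkS, hind⟩, hcard, ?_⟩
  -- separability
  have hsep := (Pool.Agent.W338.MF.nt Pool.Agent.W976.MF.FLIP (fun _ : J' => Q) h R M hM
    (fun _ => by omega) hm hd hR huni (fun i => by
      obtain ⟨r, hr, φ, hirr⟩ := h5 i
      exact ⟨r, hr.out, hirr⟩) (fun i => by
      obtain ⟨r, hr, φ, hr2, hrQ, hfl, hsp', -⟩ := h6 i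
      exact ⟨r, hr.out, hr2, fun _ => hrQ, hRs r, hfl, hsp'⟩)).2
  intro i
  have h7 : (((weil Q (h i)).map (Int.castRingHom ℚ)).map (algebraMap ℚ ℂ)).Separable :=
    (hsep i).map
  rw [Polynomial.map_map, RingHom.ext_int ((algebraMap ℚ ℂ).comp (Int.castRingHom ℚ))
    (Int.castRingHom ℂ)] at h7
  unfold rtsZ
  rw [Multiset.toFinset_card_of_nodup (nodup_roots h7),
    splits_iff_card_roots.1 (IsAlgClosed.splits ((weil Q (h i)).map (Int.castRingHom ℂ))),
    (weil_monic Q (hm i)).natDegree_map, weil_natDegree Q (hm i)]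

end Pool.Agent.L5helper19.OF
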