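import Pool.Agent.L5helper29.OF.DefsG

/-!
# The trick with tuples
-/

set_option autoImplicit false
set_option linter.all false

namespace Pool.Agent.L5helper19.OF

open Polynomial NumberField Finset Pool.Agent.W458.MF Pool.Agent.W521.Frob
  Pool.Agent.L5helper29.AA Pool.Agent.L5helper29.AS Pool.Agent.L5helper29.SE
  Pool.Agent.L5helper19.AA Pool.Agent.L5helper29.OF

theorem TRICK : St_TRICK := by
  intro K _ _ τ J J' _ _ _ _ Q r hQ A A' hGF B hB0 hBG hBr
  classical
  obtain ⟨E, hE, hE2, hE3⟩ := exc_main (GK τ ∅) (Sum.elim A A') B hBG hGF.ind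
  have hlt : E.ncard < r := (Nat.pow_lt_pow_iff_right (by norm_num : 1 < 2)).1 (hE2.trans_lt hBr)
  -- a member of the tuple which is not exceptional
  let f : (Fin r × J) ⊕ (Fin r × J') → Fin r := Sum.elim Prod.fst Prod.fst
  obtain ⟨x, hx⟩ : ∃ x : Fin r, ∀ o ∈ E, f o ≠ x := by
    by_contra hcon
    push Not at hcon
    have h1 : (Set.univ : Set (Fin r)) ⊆ f '' E := by
      intro x _
      obtain ⟨o, ho, h2⟩ := hcon x
      exact ⟨o, ho, h2⟩
    have h2 := Set.ncard_le_ncard h1 (hE.image f)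
    rw [Set.ncard_univ, Nat.card_eq_fintype_card, Fintype.card_fin] at h2
    exact absurd (h2.trans (Set.ncard_image_le hE)) (not_le.2 hlt)
  refine ⟨x, ?_⟩
  have hblk : ∀ j, Blk (GK τ ∅) (A (x, j)) := fun j => hGF.blk (x, j)
  have hblkS : ∀ i, BlkS Q (GK τ ∅) (A' (x, i)) := fun i => hGF.blkS (x, i)
  let F : Finset ((Fin r × J) ⊕ (Fin r × J')) := Finset.univ.filter fun o => f o = x
  have hdis : Disjoint (F : Set ((Fin r × J) ⊕ (Fin r × J'))) E := by
    rw [Set.disjoint_left]
    intro o h1 h2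
    exact hx o h2 (Finset.mem_filter.1 (Finset.mem_coe.1 h1)).2
  have hmemF : ∀ o, f o = x → o ∈ F := fun o ho => Finset.mem_filter.2 ⟨Finset.mem_univ _, ho⟩
  have hrel := relMix (q := Q) (G := GK τ ∅) (B := B)
    (A := both (fun j : J => A (x, j)) (fun i : J' => A' (x, i))) hQ (by
      rintro (j | i)
      · exact Or.inl (hblk j)
      · exact Or.inr (hblkS i)) hB0 hBG (by
      rintro (j | i)
      · obtain ⟨σ, hσ, h1, h2, h3⟩ := hE3 F hdis (Sum.inl (x, j)) (hmemF _ rfl)
        refine ⟨σ, hσ, ?_, h2, h3⟩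
        rintro (j' | i') hne y hy
        · exact h1 (Sum.inl (x, j')) (hmemF _ rfl) (by
            intro h
            apply hne
            have h4 := Sum.inl_injective h
            rw [Prod.mk.injEq] at h4
            rw [h4.2]) y hy
        · exact h1 (Sum.inr (x, i')) (hmemF _ rfl) (by simp) y hy
      · obtain ⟨σ, hσ, h1, h2, h3⟩ := hE3 F hdis (Sum.inr (x, i)) (hmemF _ rfl)
        refine ⟨σ, hσ, ?_, h2, h3⟩
        rintro (j' | i') hne y hy
        · exact h1 (Sum.inl (x, j')) (hmemF _ rfl) (by simp) y hy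
        · exact h1 (Sum.inr (x, i')) (hmemF _ rfl) (by
            intro h
            apply hne
            have h4 := Sum.inr_injective h
            rw [Prod.mk.injEq] at h4
            rw [h4.2]) y hy)
  intro m N hN k n hm
  have h1 := hrel m N hN k n hm
  exact ⟨fun j => (h1 (Sum.inl j)).1 (hblk j), fun i => (h1 (Sum.inr i)).2 (hblkS i)⟩

end Pool.Agent.L5helper19.OF
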